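import Pool.Agent.Lib.MP_14a7d6_lc.DCSMain

/-!
# Disjoint Connected Subgraphs in time `2 ^ n * poly(n)`

The machine model is Mathlib's `Turing.FinTM2` (deterministic multi-stack Turing machines with
finitely many stacks, labels and internal states), with Mathlib's notion
`Turing.TM2OutputsInTime` of computing an output within a given number of steps.
-/

namespace Pool.Agent.Results.MP_14a7d6_lc.DisjointConnectedSubgraphs

/-- An instance of Disjoint Connected Subgraphs: a finite simple graph `G` on the vertex set
`Fin n` and `k` pairwise disjoint nonempty vertex sets `Z i`. Both `n` and `k` are part of the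
instance. -/
structure Instance where
  /-- number of vertices -/
  n : ℕ
  /-- number of terminal sets -/
  k : ℕ
  /-- the graph -/
  G : SimpleGraph (Fin n)
  /-- the terminal sets -/
  Z : Fin k → Finset (Fin n)
  nonempty : ∀ i, (Z i).Nonempty
  disjoint : Pairwise fun i j => Disjoint (Z i) (Z j)

/-- The question: are there pairwise vertex-disjoint connected subgraphs `D i` of `G` such that
`D i` contains `Z i`? -/
def Instance.Yes (I : Instance) : Prop :=
  ∃ D : Fin I.k → I.G.Subgraph,
    (∀ i, (D i).Connected ∧ ∀ v ∈ I.Z i, v ∈ (D i).verts) ∧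
    Pairwise fun i j => Disjoint (D i).verts (D j).verts

open Classical in
/-- The input word of an instance: `n` in unary, `0`, `k` in unary, `0`, then the adjacency matrix
of `G` row by row, and then, for each `i`, the indicator vector of `Z i`. -/
noncomputable def Instance.word (I : Instance) : List Bool :=
  List.replicate I.n true ++ [false] ++ List.replicate I.k true ++ [false] ++
    (List.ofFn fun a => List.ofFn fun b => decide (I.G.Adj a b)).flatten ++
    (List.ofFn fun i => List.ofFn fun v => decide (v ∈ I.Z i)).flatten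

open Pool.Agent.TMLib Pool.Agent.DCS MvPolynomial Turing

theorem k_le_n (I : Instance) : I.k ≤ I.n := by
  classical
  have h : Function.Injective (fun i => (I.nonempty i).choose) := by
    intro i j hij
    by_contra hne
    have h1 := (I.nonempty i).choose_spec
    have h2 := (I.nonempty j).choose_spec
    have hij' : (I.nonempty i).choose = (I.nonempty j).choose := hij
    rw [← hij'] at h2
    exact Finset.disjoint_left.1 (I.disjoint hne) h1 h2
  simpa using Fintype.card_le_of_injective _ h

open Classical in
theorem word_eq (I : Instance) : I.word = wordL I.G I.Z := by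
  unfold Instance.word wordL adjL membL
  simp only [List.append_assoc, List.cons_append, List.nil_append]

theorem yes_iff (I : Instance) : I.Yes ↔
    ∃ S : Fin I.k → Finset (Fin I.n), (∀ i, I.Z i ⊆ S i ∧ Conn I.G (S i : Set (Fin I.n))) ∧
      Pairwise (fun i j => Disjoint (S i) (S j)) := by
  classical
  constructor
  · rintro ⟨D, hD, hdis⟩
    refine ⟨fun i => (D i).verts.toFinset, fun i => ⟨?_, ?_⟩, ?_⟩
    · intro v hv
      rw [Set.mem_toFinset]
      exact (hD i).2 v hv
    · rw [Set.coe_toFinset]
      exact conn_of_connected (hD i).1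
    · intro i j hij
      rw [Set.disjoint_toFinset]
      exact hdis hij
  · rintro ⟨S, hS, hdis⟩
    refine ⟨fun i => (⊤ : I.G.Subgraph).induce (S i), fun i => ⟨connected_of_conn (hS i).2, ?_⟩,
      ?_⟩
    · intro v hv
      exact (hS i).1 hv
    · intro i j hij
      exact Finset.disjoint_coe.2 (hdis hij)

/-- Disjoint Connected Subgraphs can be solved by a deterministic Turing machine in time
`2 ^ n * p(n)` for a polynomial `p`, where `n` is the number of vertices. -/
theorem result : ∃ (M : TM2ComputableAux Bool Bool) (p : Polynomial ℕ),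
    (∀ s, Finite (M.tm.Γ s)) ∧
    ∀ (I : Instance) (b : Bool), (b = true ↔ I.Yes) →
      Nonempty (TM2OutputsInTime M.tm (I.word.map M.inputAlphabet.invFun)
        (some ([b].map M.outputAlphabet.invFun)) (2 ^ I.n * p.eval I.n)) := by
  classical
  let _ : TrEnc Instance := ⟨fun I => enc I.word⟩
  obtain ⟨P, hP⟩ := dcs_timeB (α := Instance) (fun I => I.word) (fun _ => rfl) (fun I => I.n)
    (fun I => I.k) (fun I => I.G) (fun I => I.Z) word_eq
  obtain ⟨p, hp⟩ := hP.machine' (fun I => I.word) (fun _ => rfl)
  refine ⟨⟨toTM p, Equiv.refl _, Equiv.refl _⟩,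
    P.comp (4 * (2 * Polynomial.X ^ 2 + 2 * Polynomial.X + 2) + 1) +
      12 * (2 * Polynomial.X ^ 2 + 2 * Polynomial.X + 2) + 19,
    fun s => (inferInstance : Finite Bool), fun I b hb => ?_⟩
  have h1 := hp I
  have hb' : b = (accL I.G I.Z (2 ^ I.n)).any (fun b => b) := by
    rw [Bool.eq_iff_iff, hb, accL_final_any, yes_iff, ← bigF_coeff_ne I.G I.Z I.nonempty
      I.disjoint]
  have hlen : I.word.length ≤ 2 * I.n ^ 2 + 2 * I.n + 2 := by
    have hk := k_le_n I
    have h2 : I.k * I.n ≤ I.n * I.n := Nat.mul_le_mul_right _ hk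
    rw [word_eq, length_wordL]
    nlinarith
  have hsz : sz I ≤ 4 * (2 * I.n ^ 2 + 2 * I.n + 2) + 1 := by
    have h2 : sz I = sz I.word := rfl
    have h3 := sz_bools_le I.word
    omega
  have hT : 2 ^ I.n * P.eval (sz I) + 12 * I.word.length +
      12 * ([(accL I.G I.Z (2 ^ I.n)).any (fun b => b)] : List Bool).length + 7 ≤
      2 ^ I.n * (P.comp (4 * (2 * Polynomial.X ^ 2 + 2 * Polynomial.X + 2) + 1) +
      12 * (2 * Polynomial.X ^ 2 + 2 * Polynomial.X + 2) + 19).eval I.n := by
    simp only [Polynomial.eval_add, Polynomial.eval_mul, Polynomial.eval_ofNat,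
      Polynomial.eval_comp, Polynomial.eval_pow, Polynomial.eval_X, Polynomial.eval_one,
      List.length_singleton]
    have h2 : 1 ≤ 2 ^ I.n := Nat.one_le_two_pow
    have h3 := polyEval_mono P hsz
    calc 2 ^ I.n * P.eval (sz I) + 12 * I.word.length + 12 * 1 + 7
        ≤ 2 ^ I.n * P.eval (4 * (2 * I.n ^ 2 + 2 * I.n + 2) + 1) +
          1 * (12 * (2 * I.n ^ 2 + 2 * I.n + 2)) + 1 * 19 := by
          have := Nat.mul_le_mul_left (2 ^ I.n) h3
          omega
      _ ≤ 2 ^ I.n * P.eval (4 * (2 * I.n ^ 2 + 2 * I.n + 2) + 1) +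
          2 ^ I.n * (12 * (2 * I.n ^ 2 + 2 * I.n + 2)) + 2 ^ I.n * 19 := by
          gcongr
      _ = _ := by ring
  obtain ⟨e, he⟩ := (h1 _ (List.map_id I.word)).some
  have h4 : ∀ v : List Bool, v = [b] → Nonempty (TM2OutputsInTime (toTM p)
      (List.map id I.word : List Bool) (some v)
      (2 ^ I.n * (P.comp (4 * (2 * Polynomial.X ^ 2 + 2 * Polynomial.X + 2) + 1) +
      12 * (2 * Polynomial.X ^ 2 + 2 * Polynomial.X + 2) + 19).eval I.n)) := by
    rintro v rfl
    rw [hb']
    exact ⟨⟨e, he.trans hT⟩⟩
  exact h4 _ rfl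

end Pool.Agent.Results.MP_14a7d6_lc.DisjointConnectedSubgraphs
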